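import Pool.Agent.W5h43.PP.Rigid

/-!
# Rigidity of paneled polyhedra cut along a matching (MP_e0197a_co)

Full answer (yes): every paneled convex polyhedron cut along a matching of its 1-skeleton is rigid.
-/

set_option autoImplicit false

namespace Pool.Agent.Results.MP_e0197a_co.MatchingCutRigid

open Pool.Agent.R118.PM

/-- **Paneled convex polyhedra cut along a matching are rigid.**
For every convex polyhedron `P` and every matching `M` in its 1-skeleton, every motion of the
paneled polyhedron of `P` cut along the edges of `M` moves, at each time, all panels by one common
isometry.  (Nothing is assumed; in particular the rigidity of the polyhedron with all hinges is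
proved, by a discrete maximum principle, and not quoted.) -/
theorem result {ι : Type} [Fintype ι] (P : Pool.Agent.R118.PM.Poly ι) (hP : IsPolyhedron P)
    (M : Set (Set E3)) (hM : IsMatching P M) : Rigid P M :=
  (rigid_iff hP hM).2 (Pool.Agent.W5h43.PP.rigid hP)

end Pool.Agent.Results.MP_e0197a_co.MatchingCutRigid
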